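import Mathlib
import Pool.Agent.H868R3.GPD.Key
import Pool.Agent.H204R3.CM.Main

/-!
# De Rham-Betti classes on abelian varieties of CM type
-/

set_option linter.unusedSectionVars false
set_option linter.unusedVariables false

namespace Pool.Agent.H868R3.GPD

open NumberField Pool.Agent.H204R3.CM

noncomputable section

variable {L : Type} [Field L] [NumberField L] {J : Type} [Fintype J] {κ : Type} [Fintype κ]

/-- The set of the CM types, as a family of sets. -/
abbrev typeFam (L : Type) [Field L] : CMType L → Set (L →+* ℂ) := fun Ψ => Ψ.1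

/-- Let `A` be the product, over `j : J`, of the abelian varieties of type `(L, t j)`. Its rational
homology is `J → L`. Let `f` be a rational multilinear form on the homology, in variables indexed
by `κ` (for `ε = 1`, an element of `H¹(A, ℚ)^{⊗ κ}`; in general the factors with `ε l = -1` are
replaced by their duals, which are identified with `J → L` by the trace form). It is a
*de Rham-Betti class* of twist `k` if `(2πi)^k f` is a linear combination with algebraic
coefficients of tensor products of the eigenclasses `per (t j, φ) · φ` in the algebraic de Rham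
cohomology `H¹(A / ℚbar)`, respectively of the dual classes. -/
def IsDRB [DecidableEq κ] (P : Periods L) (t : J → CMType L) (ε : κ → ℤ) (k : ℤ)
    (f : (κ → J → L) → ℚ) : Prop :=
  ∃ b : (κ → (Σ _ : J, (L →+* ℂ))) → ℂ, (∀ I, IsAlgebraic ℚ (b I)) ∧
    ∀ v : κ → J → L, (2 * Real.pi * Complex.I) ^ k * ((f v : ℚ) : ℂ) =
      ∑ I, b I * ∏ l, (P.per (t (I l).1, (I l).2) ^ ε l * (I l).2 (v l (I l).1))

/-- The Hodge classes in the same tensor space: the forms which extend to a real multilinear form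
on the tangent space, invariant under the action of the complex numbers of absolute value `1` (the
action on the dual being the contragredient one). -/
def IsHodgeT (t : J → CMType L) (ε : κ → ℤ) (f : (κ → J → L) → ℚ) : Prop :=
  ∃ ψ : MultilinearMap ℝ (fun _ : κ => Tan (typeFam L) t) ℝ,
    (∀ v : κ → J → L, ψ (fun l => per (typeFam L) t (v l)) = f v) ∧
      ∀ z : ℂ, ‖z‖ = 1 → ∀ u : κ → Tan (typeFam L) t, ψ (fun l => z ^ ε l • u l) = ψ u

variable [DecidableEq κ] (t : J → CMType L)

theorem coeff_unique (a a' : (κ → XX (fun _ : CMType L => L) t ℂ) → ℂ)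
    (h : ∀ v : κ → J → L, ∑ I, a I * ∏ l, chi (fun _ : CMType L => L) t ℂ (v l) (I l) =
      ∑ I, a' I * ∏ l, chi (fun _ : CMType L => L) t ℂ (v l) (I l)) : a = a' := by
  classical
  have h1 : formOf t a = formOf t a' := by
    refine multilinear_ext_span _ _ _ (span_chi t) ?_
    intro v hv
    choose w hw using hv
    have hv' : v = fun l => chi (fun _ : CMType L => L) t ℂ (w l) := funext fun l => (hw l).symm
    rw [hv', formOf_apply, formOf_apply]
    exact h w
  funext I
  have h2 := DFunLike.congr_fun h1 (fun l => Pi.single (I l) (1 : ℂ))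
  rw [formOf_single, formOf_single, Finset.prod_const_one, mul_one, mul_one] at h2
  exact h2

variable [IsCMField L] [IsGalois ℚ L] (hab : ∀ σ τ : L ≃ₐ[ℚ] L, σ * τ = τ * σ)

theorem exists_emb (j : L →+* ℂ) (ψ : L →+* ℂ) : ∃ φ : L →+* L, j.comp φ = ψ := by
  obtain ⟨σ, hσ⟩ := exists_rot j ψ
  exact ⟨(σ : L →+* L), hσ⟩

include hab in
theorem comm_emb (j : L →+* ℂ) (φ : L →+* L) (τ : L ≃ₐ[ℚ] L) :
    φ.comp (τ : L →+* L) = (τ : L →+* L).comp φ := by
  obtain ⟨σ, hσ⟩ := exists_rot j (j.comp φ)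
  have h1 : φ = (σ : L →+* L) := by
    ext x
    exact (j.injective (RingHom.congr_fun hσ x)).symm
  rw [h1]
  ext x
  exact AlgEquiv.congr_fun (hab σ τ) x

include hab in
theorem exists_coeff (f : MultilinearMap ℚ (fun _ : κ => J → L) ℚ) :
    ∃ a : (κ → XX (fun _ : CMType L => L) t ℂ) → ℂ, (∀ I, IsAlgebraic ℚ (a I)) ∧
      (∀ v : κ → J → L, ((f v : ℚ) : ℂ) =
        ∑ I, a I * ∏ l, chi (fun _ : CMType L => L) t ℂ (v l) (I l)) ∧
      ∀ I (τ : L ≃ₐ[ℚ] L), a I ≠ 0 → a (fun l => ⟨(I l).1, (I l).2.comp (τ : L →+* L)⟩) ≠ 0 := by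
  classical
  obtain ⟨j⟩ : Nonempty (L →+* ℂ) := inferInstance
  obtain ⟨c, hc⟩ := form_coeff (E := fun _ : CMType L => L) t j (fun _ => exists_emb j) f
  let e : ∀ τ : L ≃ₐ[ℚ] L, (κ → XX (fun _ : CMType L => L) t L) ≃
      (κ → XX (fun _ : CMType L => L) t ℂ) := fun τ =>
    Equiv.arrowCongr (Equiv.refl κ) (xEquiv (E := fun _ : CMType L => L) t
      (j.comp (τ : L →+* L)) (fun _ => exists_emb (j.comp (τ : L →+* L))))
  have he : ∀ τ (I : κ → XX (fun _ : CMType L => L) t L) l,
      e τ I l = ⟨(I l).1, (j.comp (τ : L →+* L)).comp (I l).2⟩ := fun τ I l => rfl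
  have hexp : ∀ τ : L ≃ₐ[ℚ] L, ∀ v : κ → J → L, ((f v : ℚ) : ℂ) =
      ∑ I, (j.comp (τ : L →+* L)) (c ((e τ).symm I)) *
        ∏ l, chi (fun _ : CMType L => L) t ℂ (v l) (I l) := by
    intro τ v
    have h2 := congrArg (j.comp (τ : L →+* L)) (hc v)
    rw [map_ratCast] at h2
    rw [h2, map_sum]
    refine Fintype.sum_equiv (e τ) _ _ fun I => ?_
    rw [map_mul, map_prod, Equiv.symm_apply_apply]
    rfl
  refine ⟨fun I => (j.comp ((1 : L ≃ₐ[ℚ] L) : L →+* L)) (c ((e 1).symm I)), fun I => ?_,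
    hexp 1, fun I τ hI => ?_⟩
  · have h1 : IsAlgebraic ℚ (c ((e 1).symm I)) := Algebra.IsAlgebraic.isAlgebraic _
    exact h1.algHom (RingHom.equivRatAlgHom L ℂ (j.comp ((1 : L ≃ₐ[ℚ] L) : L →+* L)))
  · obtain ⟨K, rfl⟩ : ∃ K, I = e 1 K := ⟨(e 1).symm I, ((e 1).apply_symm_apply I).symm⟩
    have h1 := coeff_unique t _ _ (fun v => (hexp 1 v).symm.trans (hexp τ v))
    have h2 := congrFun h1 (fun l => ⟨(e 1 K l).1, (e 1 K l).2.comp (τ : L →+* L)⟩)
    have h3 : (fun l => ⟨(e 1 K l).1, (e 1 K l).2.comp (τ : L →+* L)⟩ :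
        κ → XX (fun _ : CMType L => L) t ℂ) = e τ K := by
      funext l
      rw [he, he]
      congr 1
      ext x
      exact congrArg j (RingHom.congr_fun (comm_emb hab j (K l).2 τ) x)
    intro h0
    apply hI
    have h4 := h2.symm.trans h0
    rw [h3] at h4
    have h5 : (j.comp (τ : L →+* L)) (c ((e τ).symm (e τ K))) = 0 := h4
    rw [Equiv.symm_apply_apply, map_eq_zero] at h5
    change (j.comp ((1 : L ≃ₐ[ℚ] L) : L →+* L)) (c ((e 1).symm (e 1 K))) = 0
    rw [Equiv.symm_apply_apply, h5, map_zero]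

/-- The pair attached to a coordinate. -/
def pr (x : XX (fun _ : CMType L => L) t ℂ) : CMType L × (L →+* ℂ) := (t x.1, x.2)

include hab in
/-- **De Rham-Betti classes are Hodge classes.** -/
theorem hodge_of_drb (P : Periods L) (hInd : Indep P) (ε : κ → ℤ) (k : ℤ) (hk : ∑ l, ε l = 2 * k)
    (f : MultilinearMap ℚ (fun _ : κ => J → L) ℚ) (hf : IsDRB P t ε k f) : IsHodgeT t ε f := by
  classical
  obtain ⟨a, ha1, ha2, ha3⟩ := exists_coeff t hab f
  obtain ⟨b, hb1, hb2⟩ := hf
  have hpi : (2 * Real.pi * Complex.I : ℂ) ≠ 0 := Complex.two_pi_I_ne_zero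
  have hpik : ((2 * Real.pi * Complex.I : ℂ) ^ k) ≠ 0 := zpow_ne_zero _ hpi
  have hab' : (fun I => (2 * Real.pi * Complex.I) ^ k * a I) =
      fun I => b I * ∏ l, P.per (pr t (I l)) ^ ε l := by
    refine coeff_unique t _ _ fun v => ?_
    have h1 := hb2 v
    rw [ha2, Finset.mul_sum] at h1
    have h2 : ∀ I : κ → XX (fun _ : CMType L => L) t ℂ,
        (2 * Real.pi * Complex.I) ^ k * a I * ∏ l, chi (fun _ : CMType L => L) t ℂ (v l) (I l) =
        (2 * Real.pi * Complex.I) ^ k *
          (a I * ∏ l, chi (fun _ : CMType L => L) t ℂ (v l) (I l)) := fun I => mul_assoc _ _ _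
    rw [Finset.sum_congr rfl (fun I _ => h2 I), h1]
    refine Finset.sum_congr rfl fun I _ => ?_
    rw [Finset.prod_mul_distrib, ← mul_assoc]
    rfl
  have halg : ∀ I, a I ≠ 0 → IsAlgebraic ℚ ((∏ l, P.per (pr t (I l)) ^ ε l) /
      (2 * Real.pi * Complex.I) ^ k) := by
    intro I hI
    have h1 : (2 * Real.pi * Complex.I) ^ k * a I = b I * ∏ l, P.per (pr t (I l)) ^ ε l :=
      congrFun hab' I
    have hb0 : b I ≠ 0 := by
      intro h
      rw [h, zero_mul] at h1
      exact hI ((mul_eq_zero.1 h1).resolve_left hpik)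
    have h2 : (∏ l, P.per (pr t (I l)) ^ ε l) / (2 * Real.pi * Complex.I) ^ k = a I * (b I)⁻¹ := by
      field_simp
      linear_combination -h1
    rw [h2]
    exact (ha1 I).mul (hb1 I).inv
  have halg' : ∀ I (τ : L ≃ₐ[ℚ] L), a I ≠ 0 →
      IsAlgebraic ℚ ((∏ l, P.per (rot (pr t (I l)) τ) ^ ε l) /
        (2 * Real.pi * Complex.I) ^ k) := by
    intro I τ hI
    have h1 := halg (fun l => ⟨(I l).1, (I l).2.comp (τ : L →+* L)⟩) (ha3 I τ hI)
    have h2 : ∀ l, rot (pr t (I l)) τ = pr t ⟨(I l).1, (I l).2.comp (τ : L →+* L)⟩ :=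
      fun l => rfl
    simp only [h2]
    exact h1
  have hbal : ∀ I, a I ≠ 0 → ∑ l, ε l * typ (pr t (I l)) 1 = k := by
    intro I hI
    exact key hab P hInd (fun l => pr t (I l)) ε k hk (fun τ => halg' I τ hI) 1
  -- the real form
  refine ⟨Complex.reLm.compMultilinearMap (((formOf t a).restrictScalars ℝ).compLinearMap
    (fun _ => theta t (fun Ψ : CMType L => Ψ.2))), fun v => ?_, fun z hz u => ?_⟩
  · change (formOf t a (fun l => theta t (fun Ψ : CMType L => Ψ.2) (per (typeFam L) t (v l)))).re = f v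
    rw [formOf_apply]
    simp only [theta_per]
    rw [← ha2 v, ← Complex.ofReal_ratCast, Complex.ofReal_re]
  · change (formOf t a (fun l => theta t (fun Ψ : CMType L => Ψ.2) (z ^ ε l • u l))).re =
      (formOf t a (fun l => theta t (fun Ψ : CMType L => Ψ.2) (u l))).re
    congr 1
    rw [formOf_apply, formOf_apply]
    refine Finset.sum_congr rfl fun I _ => ?_
    by_cases hI : a I = 0
    · rw [hI, zero_mul, zero_mul]
    · congr 1
      have h1 : ∀ l, theta t (fun Ψ : CMType L => Ψ.2) (z ^ ε l • u l) (I l) =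
          z ^ (ε l * (2 * typ (pr t (I l)) 1 - 1)) * theta t (fun Ψ : CMType L => Ψ.2) (u l) (I l) := by
        intro l
        rw [theta_smul]
        change dz t (typeFam L) (z ^ ε l) (I l) * _ = _
        congr 1
        have hz0 : z ≠ 0 := by
          rintro rfl
          rw [norm_zero] at hz
          exact zero_ne_one hz
        have hzc : starRingEnd ℂ z = z⁻¹ := by
          have h2 : z * starRingEnd ℂ z = 1 := by
            rw [Complex.mul_conj, Complex.normSq_eq_norm_sq, hz]
            norm_num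
          exact eq_inv_of_mul_eq_one_right h2
        unfold dz
        have h3 : typ (pr t (I l)) 1 = if (I l).2 ∈ (t (I l).1).1 then 1 else 0 := rfl
        rw [h3]
        by_cases h4 : (I l).2 ∈ (t (I l).1).1
        · rw [if_pos h4, if_pos h4]
          congr 1
          ring
        · rw [if_neg h4, if_neg h4, map_zpow₀, hzc, inv_zpow, ← zpow_neg]
          congr 1
          ring
      rw [Finset.prod_congr rfl (fun l _ => h1 l), Finset.prod_mul_distrib]
      have hz0 : z ≠ 0 := by
        rintro rfl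
        rw [norm_zero] at hz
        exact zero_ne_one hz
      rw [← zpow_sum hz0]
      have h5 : ∑ l, ε l * (2 * typ (pr t (I l)) 1 - 1) = 0 := by
        have h6 : ∑ l, ε l * (2 * typ (pr t (I l)) 1 - 1) =
            2 * ∑ l, ε l * typ (pr t (I l)) 1 - ∑ l, ε l := by
          rw [Finset.mul_sum, ← Finset.sum_sub_distrib]
          exact Finset.sum_congr rfl fun l _ => by ring
        rw [h6, hbal I hI, hk]
        ring
      rw [h5, zpow_zero, one_mul]

end

end Pool.Agent.H868R3.GPD
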