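import Mathlib
import Pool.Agent.H868R3.GPD.Main

/-!
# Hodge classes on abelian varieties of CM type are de Rham-Betti classes
-/

set_option linter.unusedSectionVars false
set_option linter.unusedVariables false

namespace Pool.Agent.H868R3.GPD

open NumberField Pool.Agent.H204R3.CM

noncomputable section

variable {L : Type} [Field L] [NumberField L] {J : Type} [Fintype J] {κ : Type} [Fintype κ]
  [DecidableEq κ] (t : J → CMType L)

theorem dz_zpow (z : ℂ) (hz : ‖z‖ = 1) (e : ℤ) (x : XX (fun _ : CMType L => L) t ℂ) :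
    dz t (typeFam L) (z ^ e) x = z ^ (e * (2 * typ (pr t x) 1 - 1)) := by
  classical
  have hz0 : z ≠ 0 := by
    rintro rfl
    rw [norm_zero] at hz
    exact zero_ne_one hz
  have hzc : starRingEnd ℂ z = z⁻¹ := by
    have h2 : z * starRingEnd ℂ z = 1 := by
      rw [Complex.mul_conj, Complex.normSq_eq_norm_sq, hz]
      norm_num
    exact eq_inv_of_mul_eq_one_right h2
  unfold dz
  have h3 : typ (pr t x) 1 = if x.2 ∈ (t x.1).1 then 1 else 0 := rfl
  rw [h3]
  by_cases h4 : x.2 ∈ (t x.1).1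
  · rw [if_pos h4, if_pos h4]
    congr 1
    ring
  · rw [if_neg h4, if_neg h4, map_zpow₀, hzc, inv_zpow, ← zpow_neg]
    congr 1
    ring

/-- The coefficients of a Hodge class. -/
theorem balancedT (ε : κ → ℤ) (c : (κ → XX (fun _ : CMType L => L) t ℂ) → ℂ)
    (ψ : MultilinearMap ℝ (fun _ : κ => Tan (typeFam L) t) ℝ)
    (h1 : ∀ v : κ → J → L,
      (ψ (fun l => per (typeFam L) t (v l)) : ℂ) =
        ∑ I, c I * ∏ l, chi (fun _ : CMType L => L) t ℂ (v l) (I l))
    (h2 : ∀ z : ℂ, ‖z‖ = 1 → ∀ u : κ → Tan (typeFam L) t, ψ (fun l => z ^ ε l • u l) = ψ u)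
    (I : κ → XX (fun _ : CMType L => L) t ℂ) (hI : c I ≠ 0) :
    ∑ l, ε l * (2 * typ (pr t (I l)) 1 - 1) = 0 := by
  classical
  have hΦ : ∀ Ψ : CMType L, IsCMType (typeFam L Ψ) := fun Ψ => Ψ.2
  let F := formOf t c
  let G1 : MultilinearMap ℝ (fun _ : κ => Tan (typeFam L) t) ℂ :=
    Complex.ofRealCLM.toLinearMap.compMultilinearMap ψ
  let G2 : MultilinearMap ℝ (fun _ : κ => Tan (typeFam L) t) ℂ :=
    (F.restrictScalars ℝ).compLinearMap (fun _ => theta t hΦ)
  have hG : G1 = G2 := by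
    refine multilinear_ext_span _ _ _ (span_per t hΦ) ?_
    intro v hv
    choose w hw using hv
    have hv' : v = fun l => per (typeFam L) t (w l) := funext fun l => (hw l).symm
    rw [hv']
    change ((ψ (fun l => per (typeFam L) t (w l)) : ℝ) : ℂ) =
      formOf t c (fun l => theta t hΦ (per (typeFam L) t (w l)))
    rw [h1, formOf_apply]
    simp only [theta_per]
  have hG' : ∀ u : κ → Tan (typeFam L) t,
      ((ψ u : ℝ) : ℂ) = F (fun l => theta t hΦ (u l)) := by
    intro u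
    exact DFunLike.congr_fun hG u
  by_contra hne
  set e : ℤ := ∑ l, ε l * (2 * typ (pr t (I l)) 1 - 1) with he
  let z : ℂ := Complex.exp ((Real.pi / e : ℝ) * Complex.I)
  have hz : ‖z‖ = 1 := Complex.norm_exp_ofReal_mul_I _
  have hz0 : z ≠ 0 := Complex.exp_ne_zero _
  let D : ℤ → ((XX (fun _ : CMType L => L) t ℂ → ℂ) →ₗ[ℂ]
      (XX (fun _ : CMType L => L) t ℂ → ℂ)) := fun n =>
    { toFun := fun w x => dz t (typeFam L) (z ^ n) x * w x
      map_add' := fun a b => by funext x; simp only [Pi.add_apply, mul_add]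
      map_smul' := fun a b => by
        funext x
        simp only [Pi.smul_apply, smul_eq_mul, RingHom.id_apply]
        ring }
  have hF : F.compLinearMap (fun l => D (ε l)) = F := by
    refine multilinear_ext_span _ _ _ (span_chi t) ?_
    intro v hv
    choose w hw using hv
    have hv' : v = fun l => theta t hΦ (per (typeFam L) t (w l)) :=
      funext fun l => by rw [theta_per, hw l]
    rw [hv', MultilinearMap.compLinearMap_apply]
    have h3 := h2 z hz (fun l => per (typeFam L) t (w l))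
    have h4 := hG' (fun l => z ^ ε l • per (typeFam L) t (w l))
    rw [h3, hG'] at h4
    rw [h4]
    congr 1
    funext l
    exact (theta_smul t hΦ (z ^ ε l) _).symm
  have h3 := DFunLike.congr_fun hF (fun l => Pi.single (I l) (1 : ℂ))
  rw [MultilinearMap.compLinearMap_apply] at h3
  have h4 : (fun l => D (ε l) (Pi.single (I l) (1 : ℂ))) =
      fun l => Pi.single (I l) (dz t (typeFam L) (z ^ ε l) (I l)) := by
    funext l x
    change dz t (typeFam L) (z ^ ε l) x *
      (Pi.single (I l) (1 : ℂ) : XX (fun _ : CMType L => L) t ℂ → ℂ) x = _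
    by_cases h : x = I l
    · subst h
      rw [Pi.single_eq_same, Pi.single_eq_same, mul_one]
    · rw [Pi.single_eq_of_ne h, Pi.single_eq_of_ne h, mul_zero]
  rw [h4] at h3
  simp only [F] at h3
  rw [formOf_single, formOf_single, Finset.prod_const_one, mul_one] at h3
  have h5 : ∏ l, dz t (typeFam L) (z ^ ε l) (I l) = 1 := mul_left_cancel₀ hI (by rw [h3, mul_one])
  have h6 : ∏ l, dz t (typeFam L) (z ^ ε l) (I l) = z ^ e := by
    rw [he, zpow_sum hz0]
    exact Finset.prod_congr rfl fun l _ => dz_zpow t z hz (ε l) (I l)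
  rw [h6] at h5
  have h7 : z ^ e = Complex.exp (Real.pi * Complex.I) := by
    have h8 : (e : ℂ) ≠ 0 := by exact_mod_cast hne
    change Complex.exp ((Real.pi / e : ℝ) * Complex.I) ^ e = _
    rw [← Complex.exp_int_mul]
    congr 1
    push_cast
    field_simp
  rw [h7, Complex.exp_pi_mul_I] at h5
  norm_num at h5

variable [IsCMField L] [IsGalois ℚ L] (hab : ∀ σ τ : L ≃ₐ[ℚ] L, σ * τ = τ * σ)

include hab in
/-- **Hodge classes are de Rham-Betti classes.** -/
theorem drb_of_hodge (P : Periods L) (ε : κ → ℤ) (k : ℤ) (hk : ∑ l, ε l = 2 * k)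
    (f : MultilinearMap ℚ (fun _ : κ => J → L) ℚ) (hf : IsHodgeT t ε f) : IsDRB P t ε k f := by
  classical
  obtain ⟨a, ha1, ha2, ha3⟩ := exists_coeff t hab f
  obtain ⟨ψ, hψ1, hψ2⟩ := hf
  have hpi : (2 * Real.pi * Complex.I : ℂ) ≠ 0 := Complex.two_pi_I_ne_zero
  have hpik : ((2 * Real.pi * Complex.I : ℂ) ^ k) ≠ 0 := zpow_ne_zero _ hpi
  have hbal : ∀ I, a I ≠ 0 → ∑ l, ε l * typ (pr t (I l)) 1 = k := by
    intro I hI
    have h1 := balancedT t ε a ψ (fun v => by
      rw [hψ1 v, ← ha2 v]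
      exact Complex.ofReal_ratCast _) hψ2 I hI
    have h6 : ∑ l, ε l * (2 * typ (pr t (I l)) 1 - 1) =
        2 * ∑ l, ε l * typ (pr t (I l)) 1 - ∑ l, ε l := by
      rw [Finset.mul_sum, ← Finset.sum_sub_distrib]
      exact Finset.sum_congr rfl fun l _ => by ring
    rw [h6, hk] at h1
    linarith
  have hbal' : ∀ I, a I ≠ 0 → ∀ τ : L ≃ₐ[ℚ] L, ∑ l, ε l * typ (pr t (I l)) τ = k := by
    intro I hI τ
    have h1 := hbal _ (ha3 I τ hI)
    exact h1
  have hper : ∀ I : κ → XX (fun _ : CMType L => L) t ℂ,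
      (∏ l, P.per (pr t (I l)) ^ ε l) ≠ 0 := fun I =>
    Finset.prod_ne_zero_iff.2 fun l _ => zpow_ne_zero _ (P.ne_zero _)
  refine ⟨fun I => a I * ((∏ l, P.per (pr t (I l)) ^ ε l) /
    (2 * Real.pi * Complex.I) ^ k)⁻¹, fun I => ?_, fun v => ?_⟩
  · change IsAlgebraic ℚ (a I * ((∏ l, P.per (pr t (I l)) ^ ε l) /
      (2 * Real.pi * Complex.I) ^ k)⁻¹)
    by_cases hI : a I = 0
    · rw [hI, zero_mul]
      exact isAlgebraic_zero
    · exact (ha1 I).mul (P.monomial (fun l => pr t (I l)) ε k (hbal' I hI)).inv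
  · rw [ha2 v, Finset.mul_sum]
    refine Finset.sum_congr rfl fun I _ => ?_
    rw [Finset.prod_mul_distrib]
    have h1 : ∏ l, P.per (t (I l).1, (I l).2) ^ ε l = ∏ l, P.per (pr t (I l)) ^ ε l := rfl
    have h2 : ∏ l, (I l).2 (v l (I l).1) = ∏ l, chi (fun _ : CMType L => L) t ℂ (v l) (I l) := rfl
    rw [h1, h2]
    have h3 := hper I
    field_simp

include hab in
/-- **De Rham-Betti classes are the same as Hodge classes.** -/
theorem drb_iff_hodge (P : Periods L) (hInd : Indep P) (ε : κ → ℤ) (k : ℤ) (hk : ∑ l, ε l = 2 * k)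
    (f : MultilinearMap ℚ (fun _ : κ => J → L) ℚ) : IsDRB P t ε k f ↔ IsHodgeT t ε f :=
  ⟨hodge_of_drb t hab P hInd ε k hk f, drb_of_hodge t hab P ε k hk f⟩

end

end Pool.Agent.H868R3.GPD
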