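import Mathlib
import Pool.Agent.H868R3.GPD.Conv
import Pool.Agent.H340R2.LW

/-!
# Homomorphisms of de Rham-Betti structures and the independence of periods
-/

set_option linter.unusedSectionVars false
set_option linter.unusedVariables false

namespace Pool.Agent.H868R3.GPD

open NumberField Pool.Agent.H204R3.CM Pool.Agent.H868R3.GPC

noncomputable section

variable {L : Type} [Field L] [NumberField L] [IsCMField L] [IsGalois ℚ L]
  (hab : ∀ σ τ : L ≃ₐ[ℚ] L, σ * τ = τ * σ)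

theorem isAlg_sum {A : Type*} (s : Finset A) (z : A → ℂ) (hz : ∀ a ∈ s, IsAlgebraic ℚ (z a)) :
    IsAlgebraic ℚ (∑ a ∈ s, z a) := by
  classical
  induction s using Finset.induction_on with
  | empty =>
    rw [Finset.sum_empty]
    exact isAlgebraic_zero
  | insert a s ha ih =>
    rw [Finset.sum_insert ha]
    exact (hz a (Finset.mem_insert_self a s)).add
      (ih fun b hb => hz b (Finset.mem_insert_of_mem hb))

/-- The linear maps used in the bilinear form. -/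
def linH (ρ : L ≃ₐ[ℚ] L) : Fin 2 → ((Fin 2 → L) →ₗ[ℚ] L) :=
  ![LinearMap.proj 0, (ρ.toLinearMap).comp (LinearMap.proj 1)]

/-- The bilinear form `Tr (v w')`. -/
def gH (ρ : L ≃ₐ[ℚ] L) : MultilinearMap ℚ (fun _ : Fin 2 => Fin 2 → L) ℚ :=
  (Algebra.trace ℚ L).compMultilinearMap
    ((MultilinearMap.mkPiAlgebra ℚ (Fin 2) L).compLinearMap (linH ρ))

theorem gH_apply (ρ : L ≃ₐ[ℚ] L) (v : Fin 2 → Fin 2 → L) :
    gH ρ v = Algebra.trace ℚ L (v 0 0 * ρ (v 1 1)) := by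
  unfold gH
  rw [LinearMap.compMultilinearMap_apply, MultilinearMap.compLinearMap_apply,
    MultilinearMap.mkPiAlgebra_apply, Fin.prod_univ_two]
  rfl

/-- The index of an eigenclass in the bilinear form. -/
def ixH (ρ : L ≃ₐ[ℚ] L) (ψ : L →+* ℂ) : Fin 2 → Σ _ : Fin 2, (L →+* ℂ) :=
  ![⟨0, ψ⟩, ⟨1, ψ.comp (ρ : L →+* L)⟩]

theorem gH_expand (ρ : L ≃ₐ[ℚ] L) (v : Fin 2 → Fin 2 → L) :
    ((gH ρ v : ℚ) : ℂ) = ∑ ψ : L →+* ℂ, ∏ l, (ixH ρ ψ l).2 (v l (ixH ρ ψ l).1) := by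
  rw [gH_apply]
  have h1 := trace_eq_sum_embeddings (K := ℚ) (L := L) ℂ (x := v 0 0 * ρ (v 1 1))
  rw [eq_ratCast] at h1
  rw [h1]
  refine (Fintype.sum_equiv (RingHom.equivRatAlgHom L ℂ) _ _ (fun ψ => ?_)).symm
  rw [Fin.prod_univ_two]
  change ψ (v 0 0) * ψ (ρ (v 1 1)) = ψ (v 0 0 * ρ (v 1 1))
  rw [map_mul]

include hab in
/-- If all de Rham-Betti homomorphisms `H¹(B) → H¹(C)` are homomorphisms of Hodge structures, the
periods of eigenclasses of different types are not proportional. -/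
theorem indep_of_hom (P : Periods L)
    (h1 : ∀ (t : Fin 2 → CMType L) (f : MultilinearMap ℚ (fun _ : Fin 2 => Fin 2 → L) ℚ),
      IsDRB P t ![1, -1] 0 f → IsHodgeT t ![1, -1] f) : Indep P := by
  classical
  intro x y hxy
  by_contra hall
  push Not at hall
  apply hxy
  obtain ⟨ρ, hρ⟩ := exists_rot x.2 y.2
  let t : Fin 2 → CMType L := ![x.1, y.1]
  have hcomp : ∀ τ : L ≃ₐ[ℚ] L, (x.2.comp (τ : L →+* L)).comp (ρ : L →+* L) = (rot y τ).2 := by
    intro τ
    change _ = y.2.comp (τ : L →+* L)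
    rw [← hρ]
    ext z
    exact congrArg x.2 (AlgEquiv.congr_fun (hab τ ρ) z)
  have hg : IsDRB P t ![1, -1] 0 (gH ρ) := by
    refine ⟨fun I => ∑ ψ : L →+* ℂ, if I = ixH ρ ψ then
      (P.per (x.1, ψ) / P.per (y.1, ψ.comp (ρ : L →+* L)))⁻¹ else 0, fun I => ?_, fun v => ?_⟩
    · refine isAlg_sum _ _ fun ψ _ => ?_
      by_cases h : I = ixH ρ ψ
      · rw [if_pos h]
        obtain ⟨τ, hτ⟩ := exists_rot x.2 ψ
        have h3 : P.per (x.1, ψ) = P.per (rot x τ) := by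
          rw [← hτ]
          rfl
        have h4 : P.per (y.1, ψ.comp (ρ : L →+* L)) = P.per (rot y τ) := by
          have h5 : ψ.comp (ρ : L →+* L) = (rot y τ).2 := by
            rw [← hτ]
            exact hcomp τ
          rw [h5]
          rfl
        rw [h3, h4]
        exact (hall τ).inv
      · rw [if_neg h]
        exact isAlgebraic_zero
    · rw [zpow_zero, one_mul, gH_expand]
      simp only [Finset.sum_mul]
      rw [Finset.sum_comm]
      refine Finset.sum_congr rfl fun ψ _ => ?_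
      rw [Finset.sum_eq_single (ixH ρ ψ)]
      · rw [if_pos rfl, Finset.prod_mul_distrib]
        have h3 : ∏ l, P.per (t (ixH ρ ψ l).1, (ixH ρ ψ l).2) ^ (![1, -1] : Fin 2 → ℤ) l =
            P.per (x.1, ψ) / P.per (y.1, ψ.comp (ρ : L →+* L)) := by
          rw [Fin.prod_univ_two]
          change P.per (x.1, ψ) ^ (1 : ℤ) * P.per (y.1, ψ.comp (ρ : L →+* L)) ^ (-1 : ℤ) = _
          rw [zpow_one, zpow_neg_one, div_eq_mul_inv]
        rw [h3]
        have h4 := P.ne_zero (x.1, ψ)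
        have h5 := P.ne_zero (y.1, ψ.comp (ρ : L →+* L))
        rw [← mul_assoc, inv_mul_cancel₀ (div_ne_zero h4 h5), one_mul]
      · intro I _ hI
        rw [if_neg hI, zero_mul]
      · intro h
        exact absurd (Finset.mem_univ _) h
  obtain ⟨ψg, hψ1, hψ2⟩ := h1 t (gH ρ) hg
  let c : (Fin 2 → XX (fun _ : CMType L => L) t ℂ) → ℂ := fun I =>
    ∑ ψ : L →+* ℂ, if I = ixH ρ ψ then 1 else 0
  have hc : ∀ v : Fin 2 → Fin 2 → L,
      (ψg (fun l => per (typeFam L) t (v l)) : ℂ) =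
        ∑ I, c I * ∏ l, chi (fun _ : CMType L => L) t ℂ (v l) (I l) := by
    intro v
    rw [hψ1, Complex.ofReal_ratCast, gH_expand]
    simp only [c, Finset.sum_mul]
    rw [Finset.sum_comm]
    refine Finset.sum_congr rfl fun ψ _ => ?_
    rw [Finset.sum_eq_single (ixH ρ ψ)]
    · rw [if_pos rfl, one_mul]
      rfl
    · intro I _ hI
      rw [if_neg hI, zero_mul]
    · intro h
      exact absurd (Finset.mem_univ _) h
  funext τ
  have hcI : c (ixH ρ (x.2.comp (τ : L →+* L))) ≠ 0 := by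
    simp only [c]
    rw [Finset.sum_boole]
    refine Nat.cast_ne_zero.2 (Finset.card_ne_zero.2 ?_)
    exact ⟨x.2.comp (τ : L →+* L), Finset.mem_filter.2 ⟨Finset.mem_univ _, rfl⟩⟩
  have hb := balancedT t ![1, -1] c ψg hc hψ2 _ hcI
  rw [Fin.sum_univ_two] at hb
  have h2 : typ (pr t (ixH ρ (x.2.comp (τ : L →+* L)) 0)) 1 = typ x τ := rfl
  have h3 : typ (pr t (ixH ρ (x.2.comp (τ : L →+* L)) 1)) 1 = typ y τ := by
    have h4 : pr t (ixH ρ (x.2.comp (τ : L →+* L)) 1) = rot y τ := by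
      change (y.1, (x.2.comp (τ : L →+* L)).comp (ρ : L →+* L)) = _
      rw [hcomp τ]
      rfl
    rw [h4]
    rfl
  rw [h2, h3] at hb
  have h5 : (![1, -1] : Fin 2 → ℤ) 0 = 1 := rfl
  have h6 : (![1, -1] : Fin 2 → ℤ) 1 = -1 := rfl
  rw [h5, h6] at hb
  linarith

theorem two_pi_zpow (n : ℤ) (hn : n ≠ 0) :
    ¬ IsAlgebraic ℚ ((2 * Real.pi * Complex.I : ℂ) ^ n) := by
  intro h
  have h1 : IsAlgebraic ℚ ((2 * Real.pi * Complex.I : ℂ) ^ n.natAbs) := by
    rcases Int.natAbs_eq n with h2 | h2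
    · rw [h2, zpow_natCast] at h
      exact h
    · rw [h2, zpow_neg, zpow_natCast] at h
      have h3 := h.inv
      rwa [inv_inv] at h3
  have h2 : IsAlgebraic ℚ (2 * Real.pi * Complex.I : ℂ) :=
    h1.of_pow (Int.natAbs_pos.2 hn)
  have h3 : IsAlgebraic ℚ ((Real.pi : ℝ) : ℂ) := by
    have h4 : ((Real.pi : ℝ) : ℂ) = (2 * Real.pi * Complex.I) * (2 * Complex.I)⁻¹ := by
      field_simp
    rw [h4]
    refine h2.mul (IsAlgebraic.inv ?_)
    refine IsAlgebraic.mul ?_ ?_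
    · have h5 : IsAlgebraic ℚ ((2 : ℕ) : ℂ) := isAlgebraic_natCast 2
      exact_mod_cast h5
    · exact (Complex.isIntegral_rat_I).isAlgebraic
  exact Pool.Agent.H340R2.LW.transcendental_pi_complex h3

include hab in
/-- The weight of a monomial. -/
theorem weight_eq (P : Periods L) {A : Type} [Fintype A] (s : A → CMType L × (L →+* ℂ))
    (ε : A → ℤ) (k : ℤ)
    (h : ∀ τ, IsAlgebraic ℚ ((∏ l, P.per (rot (s l) τ) ^ ε l) /
      (2 * Real.pi * Complex.I) ^ k)) : ∑ l, ε l = 2 * k := by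
  by_contra hne
  have hpi : (2 * Real.pi * Complex.I : ℂ) ≠ 0 := Complex.two_pi_I_ne_zero
  have h1 := h 1
  have h2 := h (cc L)
  have h3 : IsAlgebraic ℚ (∏ l, ((P.per (s l) * P.per (rot (s l) (cc L))) /
      (2 * Real.pi * Complex.I)) ^ ε l) :=
    isAlg_prod _ _ fun l _ => isAlg_zpow (legendre hab P _) _
  have h4 : ∏ l, ((P.per (s l) * P.per (rot (s l) (cc L))) /
      (2 * Real.pi * Complex.I)) ^ ε l =
      ((∏ l, P.per (s l) ^ ε l) / (2 * Real.pi * Complex.I) ^ k) *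
        ((∏ l, P.per (rot (s l) (cc L)) ^ ε l) / (2 * Real.pi * Complex.I) ^ k) *
          (2 * Real.pi * Complex.I) ^ (2 * k - ∑ l, ε l) := by
    rw [zpow_sub₀ hpi, two_mul k, zpow_add₀ hpi]
    have h5 : ((2 * Real.pi * Complex.I : ℂ) ^ k) ≠ 0 := zpow_ne_zero _ hpi
    have h6 : ∏ l, ((P.per (s l) * P.per (rot (s l) (cc L))) /
        (2 * Real.pi * Complex.I)) ^ ε l = (∏ l, P.per (s l) ^ ε l) *
          (∏ l, P.per (rot (s l) (cc L)) ^ ε l) / (2 * Real.pi * Complex.I) ^ (∑ l, ε l) := by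
      rw [zpow_sum hpi, ← Finset.prod_mul_distrib, ← Finset.prod_div_distrib]
      exact Finset.prod_congr rfl fun l _ => by rw [div_zpow, mul_zpow]
    rw [h6]
    field_simp
  have h7 : (2 * Real.pi * Complex.I : ℂ) ^ (2 * k - ∑ l, ε l) =
      (∏ l, ((P.per (s l) * P.per (rot (s l) (cc L))) /
        (2 * Real.pi * Complex.I)) ^ ε l) *
      (((∏ l, P.per (s l) ^ ε l) / (2 * Real.pi * Complex.I) ^ k) *
        ((∏ l, P.per (rot (s l) (cc L)) ^ ε l) / (2 * Real.pi * Complex.I) ^ k))⁻¹ := by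
    rw [h4]
    have h8 : (∏ l, P.per (s l) ^ ε l) ≠ 0 :=
      Finset.prod_ne_zero_iff.2 fun l _ => zpow_ne_zero _ (P.ne_zero _)
    have h9 : (∏ l, P.per (rot (s l) (cc L)) ^ ε l) ≠ 0 :=
      Finset.prod_ne_zero_iff.2 fun l _ => zpow_ne_zero _ (P.ne_zero _)
    have h5 : ((2 * Real.pi * Complex.I : ℂ) ^ k) ≠ 0 := zpow_ne_zero _ hpi
    field_simp
  refine two_pi_zpow (2 * k - ∑ l, ε l) (by omega) ?_
  rw [h7]
  exact h3.mul (IsAlgebraic.inv (IsAlgebraic.mul h1 h2))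

end

end Pool.Agent.H868R3.GPD
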