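import Mathlib
import Pool.Agent.H868R3.GPD.Conv
import Pool.Agent.H204R3.CM.Coef

/-!
# The case of degree one implies the independence of periods
-/

set_option linter.unusedSectionVars false
set_option linter.unusedVariables false

namespace Pool.Agent.H868R3.GPD

open NumberField Pool.Agent.H204R3.CM Pool.Agent.H868R3.GPC

noncomputable section

variable {L : Type} [Field L] [NumberField L] {J : Type} [Fintype J] {κ : Type} [Fintype κ]
  [DecidableEq κ] (t : J → CMType L)

/-- The combinations of products of eigenclasses with algebraic coefficients. -/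
def DR (P : Periods L) (t : J → CMType L) (F : (κ → J → L) → ℂ) : Prop :=
  ∃ b : (κ → (Σ _ : J, (L →+* ℂ))) → ℂ, (∀ I, IsAlgebraic ℚ (b I)) ∧
    ∀ v : κ → J → L, F v =
      ∑ I, b I * ∏ l, (P.per (t (I l).1, (I l).2) * (I l).2 (v l (I l).1))

theorem DR.add {P : Periods L} {t : J → CMType L} {F F' : (κ → J → L) → ℂ} (h : DR P t F)
    (h' : DR P t F') : DR P t (fun v => F v + F' v) := by
  obtain ⟨b, h1, h2⟩ := h
  obtain ⟨b', h1', h2'⟩ := h'
  refine ⟨fun I => b I + b' I, fun I => (h1 I).add (h1' I), fun v => ?_⟩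
  simp only [h2, h2', add_mul, Finset.sum_add_distrib]

theorem DR.smul {P : Periods L} {t : J → CMType L} {F : (κ → J → L) → ℂ} (h : DR P t F)
    (c : ℂ) (hc : IsAlgebraic ℚ c) : DR P t (fun v => c * F v) := by
  obtain ⟨b, h1, h2⟩ := h
  refine ⟨fun I => c * b I, fun I => hc.mul (h1 I), fun v => ?_⟩
  simp only [h2, mul_assoc, Finset.mul_sum]

theorem DR.sum {P : Periods L} {t : J → CMType L} {A : Type*} (s : Finset A)
    (F : A → (κ → J → L) → ℂ) (h : ∀ a ∈ s, DR P t (F a)) : DR P t (fun v => ∑ a ∈ s, F a v) := by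
  classical
  induction s using Finset.induction_on with
  | empty =>
    refine ⟨fun _ => 0, fun _ => isAlgebraic_zero, fun v => ?_⟩
    simp
  | insert a s ha ih =>
    have h1 := (h a (Finset.mem_insert_self a s)).add
      (ih fun b hb => h b (Finset.mem_insert_of_mem hb))
    have h2 : (fun v => ∑ b ∈ insert a s, F b v) = fun v => F a v + ∑ b ∈ s, F b v := by
      funext v
      rw [Finset.sum_insert ha]
    rw [h2]
    exact h1

theorem DR.perm {P : Periods L} {t : J → CMType L} {F : (κ → J → L) → ℂ} (h : DR P t F)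
    (σ : Equiv.Perm κ) : DR P t (fun v => F (fun l => v (σ l))) := by
  obtain ⟨b, h1, h2⟩ := h
  refine ⟨fun I => b (fun l => I (σ l)), fun I => h1 _, fun v => ?_⟩
  change F (fun l => v (σ l)) = _
  rw [h2]
  refine Fintype.sum_equiv (Equiv.arrowCongr σ (Equiv.refl _)) _ _ fun I => ?_
  have h3 : ∀ l, (Equiv.arrowCongr σ (Equiv.refl (Σ _ : J, (L →+* ℂ))) I) (σ l) = I l := by
    intro l
    simp [Equiv.arrowCongr]
  congr 1
  · congr 1
    funext l
    exact (h3 l).symm
  · rw [← Equiv.prod_comp σ (fun l => P.per (t ((Equiv.arrowCongr σ (Equiv.refl (Σ _ : J, (L →+* ℂ))) I) l).1,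
      ((Equiv.arrowCongr σ (Equiv.refl (Σ _ : J, (L →+* ℂ))) I) l).2) *
      ((Equiv.arrowCongr σ (Equiv.refl (Σ _ : J, (L →+* ℂ))) I) l).2
        (v l ((Equiv.arrowCongr σ (Equiv.refl (Σ _ : J, (L →+* ℂ))) I) l).1))]
    refine Finset.prod_congr rfl fun l _ => ?_
    simp only [h3]

theorem DR.mono (P : Periods L) (t : J → CMType L) (b : ℂ) (hb : IsAlgebraic ℚ b)
    (I : κ → (Σ _ : J, (L →+* ℂ))) :
    DR P t (fun v => b * ∏ l, (P.per (t (I l).1, (I l).2) * (I l).2 (v l (I l).1))) := by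
  classical
  refine ⟨fun I' => if I' = I then b else 0, fun I' => ?_, fun v => ?_⟩
  · change IsAlgebraic ℚ (if I' = I then b else 0)
    by_cases h : I' = I
    · rw [if_pos h]
      exact hb
    · rw [if_neg h]
      exact isAlgebraic_zero
  · rw [Finset.sum_eq_single I]
    · change _ = (if I = I then b else 0) * _
      rw [if_pos rfl]
    · intro I' _ h
      change (if I' = I then b else 0) * _ = 0
      rw [if_neg h, zero_mul]
    · intro h
      exact absurd (Finset.mem_univ I) h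

variable [IsCMField L] [IsGalois ℚ L] (hab : ∀ σ τ : L ≃ₐ[ℚ] L, σ * τ = τ * σ)

/-- The linear maps used in the bilinear form. -/
def lin (ρ : L ≃ₐ[ℚ] L) (l : Fin 1 × Fin 2) : (Fin 2 → L) →ₗ[ℚ] L :=
  if l.2 = 0 then LinearMap.proj 0 else (ρ.toLinearMap).comp (LinearMap.proj 1)

/-- The bilinear form `Tr (v w')`. -/
def gf (ρ : L ≃ₐ[ℚ] L) : MultilinearMap ℚ (fun _ : Fin 1 × Fin 2 => Fin 2 → L) ℚ :=
  (Algebra.trace ℚ L).compMultilinearMap
    ((MultilinearMap.mkPiAlgebra ℚ (Fin 1 × Fin 2) L).compLinearMap (lin ρ))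

theorem gf_apply (ρ : L ≃ₐ[ℚ] L) (v : Fin 1 × Fin 2 → Fin 2 → L) :
    gf ρ v = Algebra.trace ℚ L (v (0, 0) 0 * ρ (v (0, 1) 1)) := by
  unfold gf
  rw [LinearMap.compMultilinearMap_apply, MultilinearMap.compLinearMap_apply,
    MultilinearMap.mkPiAlgebra_apply, Fintype.prod_prod_type, Fintype.prod_unique,
    Fin.prod_univ_two]
  rfl

/-- The index of an eigenclass in the bilinear form. -/
def ix (ρ : L ≃ₐ[ℚ] L) (ψ : L →+* ℂ) (l : Fin 1 × Fin 2) : Σ _ : Fin 2, (L →+* ℂ) :=
  if l.2 = 0 then ⟨0, ψ⟩ else ⟨1, ψ.comp (ρ : L →+* L)⟩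

theorem gf_expand (ρ : L ≃ₐ[ℚ] L) (v : Fin 1 × Fin 2 → Fin 2 → L) :
    ((gf ρ v : ℚ) : ℂ) = ∑ ψ : L →+* ℂ, ∏ l, (ix ρ ψ l).2 (v l (ix ρ ψ l).1) := by
  rw [gf_apply]
  have h1 := trace_eq_sum_embeddings (K := ℚ) (L := L) ℂ (x := v (0, 0) 0 * ρ (v (0, 1) 1))
  rw [eq_ratCast] at h1
  rw [h1]
  refine (Fintype.sum_equiv (RingHom.equivRatAlgHom L ℂ) _ _ (fun ψ => ?_)).symm
  rw [Fintype.prod_prod_type, Fintype.prod_unique, Fin.prod_univ_two]
  change ψ (v (0, 0) 0) * ψ (ρ (v (0, 1) 1)) = ψ (v (0, 0) 0 * ρ (v (0, 1) 1))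
  rw [map_mul]

/-- The projection to one factor of the tangent space. -/
def cutT (t : Fin 2 → CMType L) (i : Fin 2) : Tan (typeFam L) t →ₗ[ℝ] Tan (typeFam L) t :=
  (LinearMap.single ℝ (fun j : Fin 2 => typeFam L (t j) → ℂ) i).comp (LinearMap.proj i)

theorem cutT_per (t : Fin 2 → CMType L) (i : Fin 2) (w : Fin 2 → L) :
    cutT t i (per (typeFam L) t w) = per (typeFam L) t (Pi.single i (w i)) := by
  funext j φ
  change (Pi.single i ((per (typeFam L) t w) i) : Tan (typeFam L) t) j φ =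
    φ.1 ((Pi.single i (w i) : Fin 2 → L) j)
  by_cases h : j = i
  · subst h
    rw [Pi.single_eq_same, Pi.single_eq_same]
    rfl
  · rw [Pi.single_eq_of_ne h, Pi.single_eq_of_ne h, map_zero]
    rfl

theorem cutT_smul (t : Fin 2 → CMType L) (i : Fin 2) (z : ℂ) (u : Tan (typeFam L) t) :
    cutT t i (z • u) = z • cutT t i u := by
  funext j
  change (Pi.single i ((z • u) i) : Tan (typeFam L) t) j =
    z • (Pi.single i (u i) : Tan (typeFam L) t) j
  by_cases h : j = i
  · subst h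
    rw [Pi.single_eq_same, Pi.single_eq_same]
    rfl
  · rw [Pi.single_eq_of_ne h, Pi.single_eq_of_ne h, smul_zero]

theorem perm_ne (σ : Equiv.Perm (Fin 1 × Fin 2)) (h : σ ≠ 1) : σ (0, 0) = (0, 1) := by
  revert σ
  decide

include hab in
/-- If all classes of degree two are Hodge classes, the periods of eigenclasses of different types
are not proportional. -/
theorem indep_of_one (P : Periods L)
    (h1 : ∀ (t : Fin 2 → CMType L) (f : (Fin 2 → L) [⋀^Fin 1 × Fin 2]→ₗ[ℚ] ℚ),
      DR P t (fun v => (2 * Real.pi * Complex.I) ^ 1 * ((f v : ℚ) : ℂ)) →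
        IsHodge (per (typeFam L) t) f) : Indep P := by
  classical
  intro x y hxy
  by_contra hall
  push Not at hall
  apply hxy
  obtain ⟨ρ, hρ⟩ := exists_rot x.2 y.2
  let t : Fin 2 → CMType L := ![x.1, y.1]
  have hpi : (2 * Real.pi * Complex.I : ℂ) ≠ 0 := Complex.two_pi_I_ne_zero
  let μ : L ≃ₐ[ℚ] L := cc L * ρ
  have hcomp : ∀ τ : L ≃ₐ[ℚ] L, (x.2.comp (τ : L →+* L)).comp (μ : L →+* L) =
      (rot (rot y τ) (cc L)).2 := by
    intro τ
    have h2 : τ * μ = ρ * (τ * cc L) := by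
      change τ * (cc L * ρ) = _
      rw [hab ρ, mul_assoc]
    change (x.2.comp (τ : L →+* L)).comp (μ : L →+* L) =
      (y.2.comp (τ : L →+* L)).comp ((cc L : L ≃ₐ[ℚ] L) : L →+* L)
    rw [← hρ]
    ext z
    exact congrArg x.2 (AlgEquiv.congr_fun h2 z)
  -- the bilinear form is a de Rham class
  have hg : DR P t (fun v => (2 * Real.pi * Complex.I) ^ 1 * ((gf μ v : ℚ) : ℂ)) := by
    have h2 : (fun v : Fin 1 × Fin 2 → Fin 2 → L =>
        (2 * Real.pi * Complex.I) ^ 1 * ((gf μ v : ℚ) : ℂ)) =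
        fun v => ∑ ψ : L →+* ℂ, ((2 * Real.pi * Complex.I) /
          (P.per (x.1, ψ) * P.per (y.1, ψ.comp (μ : L →+* L)))) *
            ∏ l, (P.per (t (ix μ ψ l).1, (ix μ ψ l).2) * (ix μ ψ l).2 (v l (ix μ ψ l).1)) := by
      funext v
      rw [gf_expand, Finset.mul_sum]
      refine Finset.sum_congr rfl fun ψ _ => ?_
      rw [Finset.prod_mul_distrib]
      have h3 : ∏ l, P.per (t (ix μ ψ l).1, (ix μ ψ l).2) =
          P.per (x.1, ψ) * P.per (y.1, ψ.comp (μ : L →+* L)) := by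
        rw [Fintype.prod_prod_type, Fintype.prod_unique, Fin.prod_univ_two]
        rfl
      rw [h3]
      have h4 := P.ne_zero (x.1, ψ)
      have h5 := P.ne_zero (y.1, ψ.comp (μ : L →+* L))
      field_simp
    rw [h2]
    refine DR.sum _ _ fun ψ _ => DR.mono P t _ ?_ _
    obtain ⟨τ, hτ⟩ := exists_rot x.2 ψ
    have h3 : P.per (x.1, ψ) = P.per (rot x τ) := by
      rw [← hτ]
      rfl
    have h4 : P.per (y.1, ψ.comp (μ : L →+* L)) = P.per (rot (rot y τ) (cc L)) := by
      have h5 : ψ.comp (μ : L →+* L) = (rot (rot y τ) (cc L)).2 := by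
        rw [← hτ]
        exact hcomp τ
      rw [h5]
      rfl
    rw [h3, h4]
    have h5 := legendre hab P (rot y τ)
    have h6 : (2 * Real.pi * Complex.I) / (P.per (rot x τ) * P.per (rot (rot y τ) (cc L))) =
        (P.per (rot x τ) / P.per (rot y τ))⁻¹ *
          ((P.per (rot y τ) * P.per (rot (rot y τ) (cc L))) / (2 * Real.pi * Complex.I))⁻¹ := by
      have h7 := P.ne_zero (rot x τ)
      have h8 := P.ne_zero (rot y τ)
      have h9 := P.ne_zero (rot (rot y τ) (cc L))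
      field_simp
    rw [h6]
    exact (hall τ).inv.mul h5.inv
  -- the alternating form
  let f : (Fin 2 → L) [⋀^Fin 1 × Fin 2]→ₗ[ℚ] ℚ := MultilinearMap.alternatization (gf μ)
  have hf : DR P t (fun v => (2 * Real.pi * Complex.I) ^ 1 * ((f v : ℚ) : ℂ)) := by
    have h2 : (fun v : Fin 1 × Fin 2 → Fin 2 → L =>
        (2 * Real.pi * Complex.I) ^ 1 * ((f v : ℚ) : ℂ)) =
        fun v => ∑ σ : Equiv.Perm (Fin 1 × Fin 2), ((Equiv.Perm.sign σ : ℤ) : ℂ) *
          ((2 * Real.pi * Complex.I) ^ 1 * ((gf μ (fun l => v (σ l)) : ℚ) : ℂ)) := by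
      funext v
      change (2 * Real.pi * Complex.I) ^ 1 *
        ((MultilinearMap.alternatization (gf μ) v : ℚ) : ℂ) = _
      rw [MultilinearMap.alternatization_apply, Rat.cast_sum, Finset.mul_sum]
      refine Finset.sum_congr rfl fun σ _ => ?_
      rw [Units.smul_def, zsmul_eq_mul]
      push_cast
      have h3 : (gf μ).domDomCongr σ v = gf μ (fun l => v (σ l)) := rfl
      rw [h3]
      ring
    rw [h2]
    exact DR.sum _ _ fun σ _ => (hg.perm σ).smul _ (isAlgebraic_intCast _)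
  obtain ⟨ψf, hψ1, hψ2⟩ := h1 t f hf
  -- the bilinear form is a Hodge class
  let ψg : MultilinearMap ℝ (fun _ : Fin 1 × Fin 2 => Tan (typeFam L) t) ℝ :=
    ψf.compLinearMap (fun l => cutT t l.2)
  have hψg1 : ∀ v : Fin 1 × Fin 2 → Fin 2 → L,
      ψg (fun l => per (typeFam L) t (v l)) = gf μ v := by
    intro v
    change ψf (fun l => cutT t l.2 (per (typeFam L) t (v l))) = _
    simp only [cutT_per]
    rw [hψ1]
    have h2 : f (fun l => Pi.single l.2 (v l l.2)) = gf μ v := by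
      change MultilinearMap.alternatization (gf μ) (fun l => Pi.single l.2 (v l l.2)) = _
      rw [MultilinearMap.alternatization_apply, Finset.sum_eq_single 1]
      · rw [Equiv.Perm.sign_one, one_smul]
        change gf μ (fun l => Pi.single l.2 (v l l.2)) = gf μ v
        rw [gf_apply, gf_apply, Pi.single_eq_same, Pi.single_eq_same]
      · intro σ _ hσ
        have h3 : (gf μ).domDomCongr σ (fun l => Pi.single l.2 (v l l.2)) = 0 := by
          change gf μ (fun l => Pi.single (σ l).2 (v (σ l) (σ l).2)) = 0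
          rw [gf_apply, perm_ne σ hσ]
          change Algebra.trace ℚ L ((Pi.single 1 (v (0, 1) 1) : Fin 2 → L) 0 * _) = 0
          rw [Pi.single_eq_of_ne (by decide), zero_mul, map_zero]
        rw [h3, smul_zero]
      · intro h
        exact absurd (Finset.mem_univ _) h
    rw [h2]
  have hψg2 : ∀ z : ℂ, ‖z‖ = 1 → ∀ u : Fin 1 × Fin 2 → Tan (typeFam L) t,
      ψg (fun l => z ^ (1 : ℤ) • u l) = ψg u := by
    intro z hz u
    change ψf (fun l => cutT t l.2 (z ^ (1 : ℤ) • u l)) = ψf (fun l => cutT t l.2 (u l))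
    simp only [cutT_smul, zpow_one]
    exact hψ2 z hz _
  let c : (Fin 1 × Fin 2 → XX (fun _ : CMType L => L) t ℂ) → ℂ := fun I =>
    ∑ ψ : L →+* ℂ, if I = ix μ ψ then 1 else 0
  have hc : ∀ v : Fin 1 × Fin 2 → Fin 2 → L,
      (ψg (fun l => per (typeFam L) t (v l)) : ℂ) =
        ∑ I, c I * ∏ l, chi (fun _ : CMType L => L) t ℂ (v l) (I l) := by
    intro v
    rw [hψg1, Complex.ofReal_ratCast, gf_expand]
    simp only [c, Finset.sum_mul]
    rw [Finset.sum_comm]
    refine Finset.sum_congr rfl fun ψ _ => ?_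
    rw [Finset.sum_eq_single (ix μ ψ)]
    · rw [if_pos rfl, one_mul]
      rfl
    · intro I _ hI
      rw [if_neg hI, zero_mul]
    · intro h
      exact absurd (Finset.mem_univ _) h
  funext τ
  have hcI : c (ix μ (x.2.comp (τ : L →+* L))) ≠ 0 := by
    simp only [c]
    rw [Finset.sum_boole]
    refine Nat.cast_ne_zero.2 (Finset.card_ne_zero.2 ?_)
    exact ⟨x.2.comp (τ : L →+* L), Finset.mem_filter.2 ⟨Finset.mem_univ _, rfl⟩⟩
  have hb := balancedT t (fun _ => (1 : ℤ)) c ψg hc hψg2 _ hcI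
  rw [Fintype.sum_prod_type, Fintype.sum_unique, Fin.sum_univ_two] at hb
  have h2 : typ (pr t (ix μ (x.2.comp (τ : L →+* L)) (default, 0))) 1 = typ x τ := rfl
  have h3 : typ (pr t (ix μ (x.2.comp (τ : L →+* L)) (default, 1))) 1 = 1 - typ y τ := by
    have h4 : pr t (ix μ (x.2.comp (τ : L →+* L)) (default, 1)) = rot (rot y τ) (cc L) := by
      change (y.1, (x.2.comp (τ : L →+* L)).comp (μ : L →+* L)) = _
      rw [hcomp τ]
      rfl
    rw [h4, typ_rot, typ_rot]
    change typ y (τ * (cc L * 1)) = _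
    rw [mul_one, hab, typ_cc hab]
  rw [h2, h3] at hb
  linarith

end

end Pool.Agent.H868R3.GPD
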