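import Mathlib
import Pool.Agent.H868R3.GPD.Hom

/-!
# The weight of de Rham-Betti classes
-/

set_option linter.unusedSectionVars false
set_option linter.unusedVariables false

namespace Pool.Agent.H868R3.GPD

open NumberField Pool.Agent.H204R3.CM Pool.Agent.H868R3.GPC

noncomputable section

variable {L : Type} [Field L] [NumberField L] {J : Type} [Fintype J] {κ : Type} [Fintype κ]
  [DecidableEq κ] (t : J → CMType L) [IsCMField L] [IsGalois ℚ L]
  (hab : ∀ σ τ : L ≃ₐ[ℚ] L, σ * τ = τ * σ)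

include hab in
/-- A nonzero de Rham-Betti class has weight zero. -/
theorem weight_of_drb (P : Periods L) (ε : κ → ℤ) (k : ℤ)
    (f : MultilinearMap ℚ (fun _ : κ => J → L) ℚ) (hf : IsDRB P t ε k f) (hf0 : f ≠ 0) :
    ∑ l, ε l = 2 * k := by
  classical
  obtain ⟨a, ha1, ha2, ha3⟩ := exists_coeff t hab f
  obtain ⟨b, hb1, hb2⟩ := hf
  have hpi : (2 * Real.pi * Complex.I : ℂ) ≠ 0 := Complex.two_pi_I_ne_zero
  have hpik : ((2 * Real.pi * Complex.I : ℂ) ^ k) ≠ 0 := zpow_ne_zero _ hpi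
  have hab' : (fun I => (2 * Real.pi * Complex.I) ^ k * a I) =
      fun I => b I * ∏ l, P.per (pr t (I l)) ^ ε l := by
    refine coeff_unique t _ _ fun v => ?_
    have h1 := hb2 v
    rw [ha2, Finset.mul_sum] at h1
    have h2 : ∀ I : κ → XX (fun _ : CMType L => L) t ℂ,
        (2 * Real.pi * Complex.I) ^ k * a I * ∏ l, chi (fun _ : CMType L => L) t ℂ (v l) (I l) =
        (2 * Real.pi * Complex.I) ^ k *
          (a I * ∏ l, chi (fun _ : CMType L => L) t ℂ (v l) (I l)) := fun I => mul_assoc _ _ _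
    rw [Finset.sum_congr rfl (fun I _ => h2 I), h1]
    refine Finset.sum_congr rfl fun I _ => ?_
    rw [Finset.prod_mul_distrib, ← mul_assoc]
    rfl
  have halg : ∀ I, a I ≠ 0 → IsAlgebraic ℚ ((∏ l, P.per (pr t (I l)) ^ ε l) /
      (2 * Real.pi * Complex.I) ^ k) := by
    intro I hI
    have h1 : (2 * Real.pi * Complex.I) ^ k * a I = b I * ∏ l, P.per (pr t (I l)) ^ ε l :=
      congrFun hab' I
    have hb0 : b I ≠ 0 := by
      intro h
      rw [h, zero_mul] at h1
      exact hI ((mul_eq_zero.1 h1).resolve_left hpik)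
    have h2 : (∏ l, P.per (pr t (I l)) ^ ε l) / (2 * Real.pi * Complex.I) ^ k = a I * (b I)⁻¹ := by
      field_simp
      linear_combination -h1
    rw [h2]
    exact (ha1 I).mul (hb1 I).inv
  have halg' : ∀ I (τ : L ≃ₐ[ℚ] L), a I ≠ 0 →
      IsAlgebraic ℚ ((∏ l, P.per (rot (pr t (I l)) τ) ^ ε l) /
        (2 * Real.pi * Complex.I) ^ k) := by
    intro I τ hI
    have h1 := halg (fun l => ⟨(I l).1, (I l).2.comp (τ : L →+* L)⟩) (ha3 I τ hI)
    have h2 : ∀ l, rot (pr t (I l)) τ = pr t ⟨(I l).1, (I l).2.comp (τ : L →+* L)⟩ :=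
      fun l => rfl
    simp only [h2]
    exact h1
  have hex : ∃ I, a I ≠ 0 := by
    by_contra hall
    push Not at hall
    apply hf0
    refine MultilinearMap.ext fun v => ?_
    have h1 := ha2 v
    simp only [hall, zero_mul, Finset.sum_const_zero] at h1
    exact_mod_cast h1
  obtain ⟨I, hI⟩ := hex
  exact weight_eq hab P (fun l => pr t (I l)) ε k (fun τ => halg' I τ hI)

end

end Pool.Agent.H868R3.GPD
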